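import Pool.Agent.Lib.MP_da621d_pr.Final

set_option autoImplicit false

open MeasureTheory Filter
open scoped ENNReal Topology

namespace Pool.Agent.Results.MP_da621d_pr.VagueLimit

/-- The uniform probability distribution on the unit sphere of `ℝ^d`: the surface measure divided
by its total mass, regarded as a measure on `ℝ^d`. -/
noncomputable def sphereUnif (d : ℕ) : Measure (EuclideanSpace ℝ (Fin d)) :=
  (((volume : Measure (EuclideanSpace ℝ (Fin d))).toSphere Set.univ)⁻¹ •
    (volume : Measure (EuclideanSpace ℝ (Fin d))).toSphere).map Subtype.val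

/-- The positive hull of the vectors `x_1, …, x_m` of `ℝ^d`. -/
def posHull {d m : ℕ} (x : Fin m → EuclideanSpace ℝ (Fin d)) :
    Set (EuclideanSpace ℝ (Fin d)) :=
  {v | ∃ c : Fin m → ℝ, (∀ i, 0 ≤ c i) ∧ v = ∑ i, c i • x i}

/-- The solid angle of a set `C ⊆ ℝ^d`: the probability that a uniform point of the sphere
lies in `C`. -/
noncomputable def solidAngle {d : ℕ} (C : Set (EuclideanSpace ℝ (Fin d))) : ℝ :=
  (sphereUnif d).real C

/-- The law of `α_d = α(pos(U_1, …, U_d))`, with `U_1, …, U_d` independent and uniform on the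
unit sphere of `ℝ^d`. -/
noncomputable def alphaLaw (d : ℕ) : Measure ℝ :=
  (Measure.pi (fun _ : Fin d => sphereUnif d)).map (fun u => solidAngle (posHull u))

/-- The measure `μ_d` on `(0, ∞)`, `μ_d(A) = 2^d d ℙ[α_d ∈ A]`. -/
noncomputable def muD (d : ℕ) : Measure (Set.Ioi (0 : ℝ)) :=
  ((2 : ℝ≥0∞) ^ d * (d : ℝ≥0∞)) • (alphaLaw d).comap Subtype.val

theorem alphaLaw_eq_lib (d : ℕ) : alphaLaw d = Pool.Agent.Lib.MP_da621d_pr.alphaLaw d := rfl

/-- The law of `α_d` is a probability measure; in particular `α_d` is a.e. measurable. -/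
theorem isProbabilityMeasure_alphaLaw (d : ℕ) (hd : 1 ≤ d) :
    IsProbabilityMeasure (alphaLaw d) := by
  obtain ⟨m, rfl⟩ : ∃ m, d = m + 1 := ⟨d - 1, by omega⟩
  exact Pool.Agent.Lib.MP_da621d_pr.alphaLaw_prob m

/-- There is a nonzero locally finite Borel measure `μ` on `(0, ∞)` such that `μ_d → μ` vaguely:
`∫ f dμ_d → ∫ f dμ` for every continuous `f : (0, ∞) → ℝ` with compact support. -/
theorem result : ∃ μ : Measure (Set.Ioi (0 : ℝ)), IsLocallyFiniteMeasure μ ∧ μ ≠ 0 ∧
    ∀ f : Set.Ioi (0 : ℝ) → ℝ, Continuous f → HasCompactSupport f →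
      Tendsto (fun d : ℕ => ∫ x, f x ∂(muD d)) atTop (𝓝 (∫ x, f x ∂μ)) := by
  obtain ⟨μ, h0, hfin, hne, hconv⟩ := Pool.Agent.Lib.MP_da621d_pr.final
  have hemb : MeasurableEmbedding (Subtype.val : Set.Ioi (0 : ℝ) → ℝ) :=
    MeasurableEmbedding.subtype_coe measurableSet_Ioi
  refine ⟨μ.comap Subtype.val, ⟨fun x => ?_⟩, ?_, ?_⟩
  · have hx : (0 : ℝ) < x.1 := x.2
    refine ⟨Subtype.val ⁻¹' (Set.Icc (x.1 / 2) (x.1 + 1)), ?_, ?_⟩
    · apply continuous_subtype_val.continuousAt.preimage_mem_nhds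
      exact Icc_mem_nhds (by linarith) (by linarith)
    · rw [hemb.comap_apply]
      refine lt_of_le_of_lt (measure_mono (Set.image_preimage_subset _ _)) (hfin _ _ (by linarith))
  · intro hz
    apply hne
    have h1 : μ (Set.Ioi 0) = 0 := by
      have h2 : (μ.comap (Subtype.val : Set.Ioi (0 : ℝ) → ℝ)) Set.univ = 0 := by rw [hz]; simp
      rw [hemb.comap_apply, Set.image_univ, Subtype.range_coe] at h2
      exact h2
    rw [← Measure.measure_univ_eq_zero]
    have h3 : (Set.univ : Set ℝ) = Set.Iic 0 ∪ Set.Ioi 0 := by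
      rw [Set.Iic_union_Ioi]
    rw [h3]
    exact measure_union_null h0 h1
  · intro f hf hcf
    set F : ℝ → ℝ := Function.extend Subtype.val f 0 with hF
    have hFc : Continuous F := HasCompactSupport.continuous_extend_zero isOpen_Ioi hf hcf
    have hFs : HasCompactSupport F := hcf.extend_zero continuous_subtype_val
    have hFt : tsupport F ⊆ Set.Ioi 0 := by
      refine (hcf.tsupport_extend_zero_subset continuous_subtype_val).trans ?_
      rintro _ ⟨y, _, rfl⟩
      exact y.2
    have hFv : ∀ x : Set.Ioi (0 : ℝ), F x.1 = f x := fun x =>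
      Subtype.val_injective.extend_apply f 0 x
    have hF0 : ∀ x : ℝ, x ∉ Set.Ioi (0 : ℝ) → F x = 0 := by
      intro x hx
      rw [hF, Function.extend_apply']
      · rfl
      · rintro ⟨y, rfl⟩
        exact hx y.2
    have hint : ∀ ρ : Measure ℝ, ∫ x, f x ∂(ρ.comap Subtype.val) = ∫ x, F x ∂ρ := by
      intro ρ
      have h1 : ∀ x : Set.Ioi (0 : ℝ), f x = F x.1 := fun x => (hFv x).symm
      simp only [h1]
      rw [integral_subtype_comap measurableSet_Ioi F]
      exact setIntegral_eq_integral_of_forall_compl_eq_zero hF0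
    have h1 := hconv F hFc hFs hFt
    rw [hint μ]
    refine h1.congr fun d => ?_
    unfold muD
    rw [integral_smul_measure, hint, ENNReal.toReal_mul, ENNReal.toReal_pow,
      ENNReal.toReal_natCast, smul_eq_mul, alphaLaw_eq_lib]
    simp

end Pool.Agent.Results.MP_da621d_pr.VagueLimit
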